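import Pool.Agent.DD.Fin

/-! # The word problem of free endomorphic and free partially endomorphic algebras is solvable
(problem MP_dd36e8_al, positive answer to Q1 and Q2)

The definitions `Sy`, `ar`, `Trm`, `Alg`, `Alg.act`, `Alg.PE`, `Trm.eval`, `FreeEq`, `Trm.word` are in `Pool.Agent.DD.Sig`; the proof is
in `Pool.Agent.DD`. -/

set_option autoImplicit false

namespace Pool.Agent.Results.MP_dd36e8_al.WordProblem

open Pool.Agent.DD

/-- Let `E` and `F` be finite sets of symbols (`Fin e` and `Fin f`), `t ∈ E` of arity `n t + 1`, `g ∈ F` of arity `m g`, and let `Y` be a set of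
generators (`Fin y`, or any other set with a primitive recursive coding, for example `ℕ`). The set of the pairs of words which are
(in Polish notation) two terms whose equality holds in all partially endomorphic algebras of type `(E, F)`, i.e. which denote the same
element of the free partially endomorphic algebra over `Y`, is decidable. -/
theorem result (e f : ℕ) (n : Fin e → ℕ) (m : Fin f → ℕ) (Y : Type) [Primcodable Y] :
    ComputablePred fun p : List (Sy e f ⊕ Y) × List (Sy e f ⊕ Y) =>
      ∃ s t : Trm n m Y, s.word = p.1 ∧ t.word = p.2 ∧ FreeEq s t :=
  main_theorem n m Y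

end Pool.Agent.Results.MP_dd36e8_al.WordProblem
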